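import Pool.Agent.BXS.Stmts

/-!
# Row MEA of squad BXS (MP_be01ff_an): integrals over the box
-/

set_option autoImplicit false

namespace Pool.Agent.BXS.H72

open MeasureTheory

theorem mea : MeaStmt := by
  intro N l g
  have hp : MeasurePreserving (fun x : Pool.Agent.BE01F.E N => WithLp.ofLp x) volume volume :=
    PiLp.volume_preserving_ofLp (Fin N)
  have he : MeasurableEmbedding (fun x : Pool.Agent.BE01F.E N => WithLp.ofLp x) :=
    (MeasurableEquiv.toLp 2 (Fin N → ℝ)).symm.measurableEmbedding
  have h := hp.setIntegral_preimage_emb he g (Pool.Agent.BOX.Box l)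
  have hs : Bx l = (fun x : Pool.Agent.BE01F.E N => WithLp.ofLp x) ⁻¹' Pool.Agent.BOX.Box l := by
    ext x
    simp [Bx, Pool.Agent.BOX.Box]
  rw [hs]
  exact h

end Pool.Agent.BXS.H72
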